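import Pool.Agent.Helper260_edgecol.Sphere

/-!
# Influences of a measurable proper 4-edge-colouring do not decay along spheres
-/

set_option autoImplicit false

namespace Pool.Agent.Results.MP_ae868b_lc.SphereInfluence

open Pool.Agent.Helper260

/-- Let `c` be a measurable proper edge colouring with four colours of the Schreier graph and let
`i` be a colour. The total influence on the class of colour `i` of the coordinates at distance `r`
from the identity is bounded below by a positive constant for all large `r`. -/
theorem result {Y : Set Pt} {c : Fin 2 → Pt → Fin 4} (hc : IsMeasColouring 4 Y c) (i : Fin 4) :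
    ∃ κ : ENNReal, 0 < κ ∧ ∃ r₀ : ℕ, ∀ r ≥ r₀,
      κ ≤ ∑' g : {g : F2 // g.norm = r}, mu (changed c i g) :=
  sphere_bound hc i

end Pool.Agent.Results.MP_ae868b_lc.SphereInfluence
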