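import Pool.Agent.Helper260_edgecol.WeakMix

/-!
# The colour involutions of a measurable proper 4-edge-colouring generate a weakly mixing action
-/

set_option autoImplicit false

namespace Pool.Agent.Results.MP_ae868b_lc.WeakMixing

open MeasureTheory Pool.Agent.Helper260

/-- Let `c` be a measurable proper edge colouring with four colours of the Schreier graph. If
`f_1, ..., f_n` are square integrable complex functions whose span is invariant, modulo null sets,
under the four maps sending a point to its neighbour along the edge of colour `i`, then every `f_j`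
is almost everywhere constant. -/
theorem result {Y : Set Pt} {c : Fin 2 → Pt → Fin 4} (hc : IsMeasColouring 4 Y c) {n : ℕ}
    (f : Fin n → Pt → ℂ) (hf : ∀ j, MemLp (f j) 2 mu)
    (hinv : ∀ (i : Fin 4) (j : Fin n), ∃ m : Fin n → ℂ, ∀ᵐ x ∂mu, ∀ s : Letter,
      edgeColour c s x = i → f j (act (Letter.val s) x) = ∑ k, m k * f k x) (j : Fin n) :
    ∃ z : ℂ, ∀ᵐ x ∂mu, f j x = z :=
  weak_mixing hc f hf hinv j

end Pool.Agent.Results.MP_ae868b_lc.WeakMixing
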